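import Pool.Agent.P.MP_26ce3f_co.Dich.Gcd
import Pool.Agent.P.MP_26ce3f_co.PS.Abs

/-! A criterion for the absence of a quantifier-free characterisation: a polynomial family of
words whose spectra depend only on the square of the parameter and force it to be a square. -/

namespace Pool.Agent.P.MP_26ce3f_co

open Polynomial Ser

variable {α : Type}

/-- There is a quantifier-free characterisation of the `t`-spectra over `k` letters. -/
def HasQF (k t : ℕ) : Prop :=
  ∃ φ : (List (Fin k) → ℤ) → Prop, QF {u | u.length ≤ t} φ ∧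
    (∀ w : List (Fin k), φ fun u => (occ w u : ℤ)) ∧
    ∀ c : List (Fin k) → ℕ, (φ fun u => (c u : ℤ)) →
      ∃ w : List (Fin k), ∀ u : List (Fin k), u.length = t → occ w u = c u

/-- Polynomial functions of an integer. -/
def PZ (f : ℤ → ℤ) : Prop := ∃ H : ℚ[X], ∀ s : ℤ, (f s : ℚ) = H.eval (s : ℚ)

theorem PZ.const (z : ℤ) : PZ fun _ => z := ⟨C z, by simp⟩

theorem PZ.id : PZ fun s => s := ⟨X, by simp⟩

theorem PZ.add {f g : ℤ → ℤ} (hf : PZ f) (hg : PZ g) : PZ fun s => f s + g s := by
  obtain ⟨P, hP⟩ := hf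
  obtain ⟨Q, hQ⟩ := hg
  exact ⟨P + Q, fun s => by simp [hP, hQ]⟩

theorem PZ.mul {f g : ℤ → ℤ} (hf : PZ f) (hg : PZ g) : PZ fun s => f s * g s := by
  obtain ⟨P, hP⟩ := hf
  obtain ⟨Q, hQ⟩ := hg
  exact ⟨P * Q, fun s => by simp [hP, hQ]⟩

theorem PZ.of_eq {f g : ℤ → ℤ} (hf : PZ f) (h : ∀ s, f s = g s) : PZ g := by
  have : f = g := _root_.funext h
  rwa [← this]

theorem PZ.quad (x y z : ℤ) : PZ fun s => x * (s * s) + y * s + z :=
  (((PZ.const x).mul (PZ.id.mul PZ.id)).add ((PZ.const y).mul PZ.id)).add (PZ.const z)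

theorem PZ.choose {m : ℤ → ℕ} (h : PZ fun s => m s) (k : ℕ) :
    PZ fun s => ((m s).choose k : ℤ) := by
  obtain ⟨H, hH⟩ := h
  refine ⟨(descPochhammer ℚ k).comp H * C (k.factorial : ℚ)⁻¹, fun s => ?_⟩
  have := hH s
  simp only [Int.cast_natCast] at this
  rw [eval_mul, eval_comp, ← this, eval_C, Int.cast_natCast,
    Nat.cast_choose_eq_descPochhammer_div, div_eq_mul_inv]

theorem PZ.ser_mul {f g : ℤ → Ser α} (hf : ∀ u, PZ fun s => f s u) (hg : ∀ u, PZ fun s => g s u)
    (u : List α) : PZ fun s => (f s * g s) u := by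
  induction u generalizing f with
  | nil => exact (hf []).mul (hg [])
  | cons a u ih =>
    exact ((hf []).mul (hg (a :: u))).add (ih (f := fun s => der a (f s)) fun v => hf (a :: v))

theorem even_part (H : ℚ[X]) :
    ∃ E : ℚ[X], ∀ s : ℚ, H.eval s + H.eval (-s) = 2 * E.eval (s * s) := by
  induction H using Polynomial.induction_on' with
  | add p q hp hq =>
    obtain ⟨E, hE⟩ := hp
    obtain ⟨F, hF⟩ := hq
    exact ⟨E + F, fun s => by simp only [eval_add]; linear_combination hE s + hF s⟩
  | monomial k c =>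
    obtain ⟨j, rfl | rfl⟩ := Nat.even_or_odd' k
    · exact ⟨monomial j c, fun s => by
        simp only [eval_monomial, pow_mul, neg_sq]; rw [sq]; ring⟩
    · exact ⟨0, fun s => by simp only [eval_monomial, pow_succ, pow_mul, eval_zero]; ring⟩

theorem PE.ev_nonneg {f : ℕ → ℤ} (hf : PE f) (h : ∀ r, 0 ≤ f (r * r)) : Ev fun n => 0 ≤ f n := by
  rcases hf.sign with h1 | h1 | h1
  · exact h1.mono fun n hn => hn.ge
  · exact h1.mono fun n hn => hn.le
  · obtain ⟨r, hr⟩ := h1.exists_sq
    exact absurd (h r) (by omega)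

theorem PE.ev_eq {f g : ℕ → ℤ} (hf : PE f) (hg : PE g) (h : ∀ r, f (r * r) = g (r * r)) :
    Ev fun n => f n = g n :=
  (((hf.add hg.neg).ev_nonneg fun r => by simp [h r]).and
    ((hg.add hf.neg).ev_nonneg fun r => by simp [h r])).mono fun n hn => by omega

theorem PE.sum {κ : Type} (s : Finset κ) {f : κ → ℕ → ℤ} (h : ∀ i, PE (f i)) :
    PE fun n => ∑ i ∈ s, f i n := by
  classical
  induction s using Finset.induction_on with
  | empty => exact (PE.const 0).congr (Ev.of_forall (by simp))
  | insert i s hi ih =>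
    exact ((h i).add ih).congr (Ev.of_forall fun n => by rw [Finset.sum_insert hi])

theorem PE.insF [Fintype α] (u : List α) {c : ℕ → Ser α} (h : ∀ v, PE fun n => c n v) :
    PE fun n => insF (c n) u := by
  induction u generalizing c with
  | nil => exact PE.sum _ fun a => h [a]
  | cons b u ih =>
    exact (PE.sum _ fun a => h (a :: b :: u)).add (ih (c := fun n => der b (c n)) fun v => h _)

theorem scale_congr' [Fintype α] {f g : Ser α} {n m : ℤ} (t : ℕ)
    (hf : ∀ u : List α, u.length < t → Dop f u = n * f u)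
    (hg : ∀ u : List α, u.length < t → Dop g u = m * g u)
    (h : ∀ u : List α, u.length = t → f u = g u) (j : ℕ) : ∀ u : List α, u.length + j = t →
      (∏ i ∈ Finset.range j, (n - (t - 1 - i))) * f u =
        (∏ i ∈ Finset.range j, (m - (t - 1 - i))) * g u := by
  induction j with
  | zero => intro u hu; simpa using h u hu
  | succ j ih =>
    intro u hu
    have a1 : insF f u = (n - u.length) * f u := by
      have := hf u (by omega)
      simp only [Dop] at this
      linear_combination this
    have a2 : insF g u = (m - u.length) * g u := by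
      have := hg u (by omega)
      simp only [Dop] at this
      linear_combination this
    have a3 := insF_congr (f := (∏ i ∈ Finset.range j, (n - (t - 1 - i))) • f + 0)
      (g := (∏ i ∈ Finset.range j, (m - (t - 1 - i))) • g + 0) u fun v hv => by
        simp only [Ser.add_apply, zsmul_apply, ih v (by omega)]
    rw [insF_lin, insF_lin, a1, a2] at a3
    have e : (u.length : ℤ) = t - 1 - j := by omega
    rw [Finset.prod_range_succ, Finset.prod_range_succ, ← e]
    linear_combination a3

variable [DecidableEq α]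

theorem eqv_of_top' [Fintype α] {g : Ser α} {n t : ℕ} (ht : 1 ≤ t) (hn : t ≤ n) (h1 : g [] = 1)
    (hg : ∀ u : List α, u.length < t → Dop g u = n * g u) (w : List α)
    (h : ∀ u : List α, u.length = t → ws w u = g u) : Eqv t (ws w) g := by
  have key := scale_congr' (n := w.length) t (fun u _ => congrFun (Dop_ws w) u) hg h
  have e : w.length = n := by
    have := key t [] (by simp)
    rw [prod_desc, prod_desc, ws_one, h1, mul_one, mul_one] at this
    have h2 : w.length.descFactorial t = n.descFactorial t := by exact_mod_cast this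
    rw [Nat.descFactorial_eq_factorial_mul_choose, Nat.descFactorial_eq_factorial_mul_choose]
      at h2
    have h3 := Nat.eq_of_mul_eq_mul_left t.factorial_pos h2
    have h4 : t ≤ w.length := by
      by_contra h5
      rw [Nat.choose_eq_zero_of_lt (by omega)] at h3
      exact absurd h3 (Nat.choose_pos hn).ne
    have mono : ∀ a b, t ≤ a → a < b → a.choose t < b.choose t := fun a b ha hab => by
      obtain ⟨s, rfl⟩ : ∃ s, t = s + 1 := ⟨t - 1, by omega⟩
      have := Nat.choose_le_choose (s + 1) (show a + 1 ≤ b from hab)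
      rw [Nat.choose_succ_succ'] at this
      have := Nat.choose_pos (show s ≤ a by omega)
      omega
    rcases lt_trichotomy w.length n with h5 | h5 | h5
    · have := mono _ _ h4 h5; omega
    · exact h5
    · have := mono _ _ hn h5; omega
  intro u hu
  have := key (t - u.length) u (by omega)
  rw [e] at this
  refine mul_left_cancel₀ (Finset.prod_ne_zero_iff.2 fun i hi => ?_) this
  omega

/-- Families of words whose subword counts are polynomial in the parameter. -/
def PW (W : ℤ → List α) : Prop := ∀ u, PZ fun s => ws (W s) u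

theorem PW.const (w : List α) : PW fun _ => w := fun _ => PZ.const _

theorem PW.append {U V : ℤ → List α} (hU : PW U) (hV : PW V) : PW fun s => U s ++ V s :=
  fun u => (PZ.ser_mul hU hV u).of_eq fun s => by rw [ws_append]

theorem PW.cons (a : α) {V : ℤ → List α} (hV : PW V) : PW fun s => a :: V s :=
  (PW.const [a]).append hV

theorem PW.rep (a : α) {m : ℤ → ℤ} (hm : PZ m) (h0 : ∀ s, 0 ≤ m s) :
    PW fun s => List.replicate (m s).toNat a := by
  intro u
  by_cases h : ∀ x ∈ u, x = a
  · refine (PZ.choose (m := fun s => (m s).toNat)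
      (hm.of_eq fun s => (Int.toNat_of_nonneg (h0 s)).symm) u.length).of_eq fun s => ?_
    conv_rhs => rw [List.eq_replicate_of_mem h]
    rw [ws_apply, occ_replicate, List.count_replicate_self]
  · refine (PZ.const 0).of_eq fun s => ?_
    rw [ws_apply, eq_comm, Nat.cast_eq_zero]
    by_contra h1
    exact h fun x hx => List.eq_of_mem_replicate
      (((occ_pos_iff _ _).1 (Nat.pos_of_ne_zero h1)).subset hx)

/-- The sum of `f` over the suffixes which follow an occurrence of `c`. -/
def suf (c : α) (f : List α → ℤ) : List α → ℤ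
  | [] => 0
  | a :: w => suf c f w + if a = c then f w else 0

theorem suf_add (c : α) (f g : List α → ℤ) (w : List α) :
    suf c (fun v => f v + g v) w = suf c f w + suf c g w := by
  induction w with
  | nil => rfl
  | cons a w ih => simp only [suf, ih]; split_ifs <;> ring

theorem suf_smul (c : α) (z : ℤ) (f : List α → ℤ) (w : List α) :
    suf c (fun v => z * f v) w = z * suf c f w := by
  induction w with
  | nil => simp [suf]
  | cons a w ih => simp only [suf, ih]; split_ifs <;> ring

theorem suf_occ (c : α) (u w : List α) : suf c (fun v => occ v u) w = occ w (c :: u) := by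
  induction w with
  | nil => simp [suf]
  | cons a w ih => simp only [suf, ih, occ_cons]; split_ifs <;> simp

theorem cnt_suf (a c : α) (f : List α → ℤ) (w : List α) :
    w.count a * suf c f w = suf c (fun v => v.count a * f v) w + suf a (suf c f) w +
      (if a = c then 1 else 0) * suf c f w := by
  induction w with
  | nil => simp [suf]
  | cons d w ih =>
    simp only [suf, List.count_cons, beq_iff_eq]
    by_cases h1 : d = a
    · subst h1
      by_cases h2 : d = c
      · simp only [h2, if_true] at ih ⊢; push_cast; linear_combination ih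
      · simp only [h2, if_true, if_false] at ih ⊢; push_cast; linear_combination ih
    · by_cases h2 : d = c
      · subst h2
        simp only [h1, Ne.symm h1, if_true, if_false] at ih ⊢; push_cast; linear_combination ih
      · simp only [h1, h2, if_false] at ih ⊢; push_cast; linear_combination ih

/-- Linear combinations, with polynomial coefficients, of subword counts of length at most `d`. -/
inductive Lin (d : ℕ) : (ℤ → List α → ℤ) → Prop
  | occ (u : List α) (h : u.length ≤ d) : Lin d fun _ w => occ w u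
  | add {F G : ℤ → List α → ℤ} : Lin d F → Lin d G → Lin d fun n w => F n w + G n w
  | smul {P : ℤ → ℤ} {F : ℤ → List α → ℤ} : PZ P → Lin d F → Lin d fun n w => P n * F n w

theorem Lin.of_eq {d : ℕ} {F G : ℤ → List α → ℤ} (h : Lin d F) (e : ∀ n w, F n w = G n w) :
    Lin d G := by
  have : F = G := _root_.funext fun n => _root_.funext (e n)
  rwa [← this]

theorem Lin.mono {d e : ℕ} {F : ℤ → List α → ℤ} (h : Lin d F) (hd : d ≤ e) : Lin e F := by
  induction h with
  | occ u h => exact Lin.occ u (h.trans hd)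
  | add _ _ h1 h2 => exact h1.add h2
  | smul hP _ h => exact h.smul hP

theorem Lin.par (d : ℕ) {P : ℤ → ℤ} (hP : PZ P) : Lin d fun n (_ : List α) => P n :=
  ((Lin.occ [] (Nat.zero_le d)).smul hP).of_eq fun n w => by simp

theorem Lin.suf (c : α) {d : ℕ} {F : ℤ → List α → ℤ} (h : Lin d F) :
    Lin (d + 1) fun n w => suf c (F n) w := by
  induction h with
  | occ u h => exact (Lin.occ (c :: u) (by simpa using h)).of_eq fun n w => (suf_occ c u w).symm
  | add _ _ h1 h2 => exact (h1.add h2).of_eq fun n w => (suf_add c _ _ w).symm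
  | smul hP _ h => exact (h.smul hP).of_eq fun n w => (suf_smul c _ _ w).symm

theorem lin_cnt_occ (a : α) (u : List α) :
    Lin (u.length + 1) fun _ w => (w.count a : ℤ) * occ w u := by
  induction u with
  | nil => exact (Lin.occ [a] le_rfl).of_eq fun n w => by simp [occ_single]
  | cons c u ih =>
    refine (((ih.suf c).add (Lin.occ (a :: c :: u) le_rfl)).add
      ((Lin.occ (c :: u) (by simp)).smul (PZ.const (if a = c then 1 else 0)))).of_eq fun n w => ?_
    rw [← suf_occ c u w, cnt_suf, ← suf_occ a (c :: u) w, _root_.funext (suf_occ c u)]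

theorem Lin.cnt (a : α) {d : ℕ} {F : ℤ → List α → ℤ} (h : Lin d F) :
    Lin (d + 1) fun n w => (w.count a : ℤ) * F n w := by
  induction h with
  | occ u h => exact (lin_cnt_occ a u).mono (by omega)
  | add _ _ h1 h2 => exact (h1.add h2).of_eq fun n w => by ring
  | smul hP _ h => exact (h.smul hP).of_eq fun n w => by ring

theorem Lin.transfer {d : ℕ} {F : ℤ → List α → ℤ} (h : Lin d F) (Q : List α → ℚ[X]) :
    ∃ P : ℚ[X], ∀ (n : ℤ) (w : List α),
      (∀ u : List α, u.length ≤ d → (Pool.Agent.P.MP_26ce3f_co.occ w u : ℚ) = (Q u).eval (n : ℚ)) →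
      (F n w : ℚ) = P.eval (n : ℚ) := by
  induction h with
  | occ u h => exact ⟨Q u, fun n w hw => by simpa using hw u h⟩
  | add _ _ h1 h2 =>
    obtain ⟨P, hP⟩ := h1
    obtain ⟨R, hR⟩ := h2
    exact ⟨P + R, fun n w hw => by simp [hP n w hw, hR n w hw]⟩
  | smul hP _ h =>
    obtain ⟨P, hP⟩ := hP
    obtain ⟨R, hR⟩ := h
    exact ⟨P * R, fun n w hw => by simp [hP n, hR n w hw]⟩

theorem ev_short {k : ℕ} (t : ℕ) {p : List (Fin k) → ℕ → Prop}
    (h : ∀ u : List (Fin k), u.length < t → Ev (p u)) :
    Ev fun n => ∀ u : List (Fin k), u.length < t → p u n :=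
  (Ev.forall_list ((List.range t).flatMap (words k)) fun u hu => h u (by
    obtain ⟨i, hi, hu⟩ := List.mem_flatMap.1 hu
    rw [mem_words.1 hu]; simpa using hi)).mono fun n hn u hu =>
      hn u (List.mem_flatMap.2 ⟨_, List.mem_range.2 hu, mem_words.2 rfl⟩)

theorem not_hasQF {k t : ℕ} (ht : 1 ≤ t) (W : ℤ → List (Fin k)) (hW : PW W)
    (he : ∀ s, Eqv t (ws (W s)) (ws (W (-s)))) (hl : ∀ s, t ≤ (W s).length)
    (hr : ∀ (n : ℕ) (w : List (Fin k)),
      (∀ F, Lin t F → (∀ s, F (s * s) (W s) = 0) → F n w = 0) → ∃ r, r * r = n) :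
    ¬ HasQF k t := by
  rintro ⟨φ, hφ, h1, h2⟩
  choose H hH using hW
  choose Q hQ using fun u => even_part (H u)
  have hsq : ∀ (s : ℤ) (u : List (Fin k)), u.length ≤ t →
      (occ (W s) u : ℚ) = (Q u).eval ((s * s : ℤ) : ℚ) := fun s u hu => by
    have a1 := hH u s
    have a2 := hH u (-s)
    have a3 := hQ u s
    beta_reduce at a1 a2
    rw [← he s u hu] at a2
    simp only [ws_apply, Int.cast_natCast, Int.cast_neg, Int.cast_mul] at a1 a2 ⊢
    linarith
  let c : ℕ → List (Fin k) → ℕ := fun n u => if u.length ≤ t then ⌊(Q u).eval (n : ℚ)⌋₊ else 0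
  have hcs : ∀ (r : ℕ) (u : List (Fin k)), u.length ≤ t →
      (c (r * r) u : ℤ) = ws (W r) u := fun r u hu => by
    have := hsq r u hu
    simp only [Int.cast_mul, Int.cast_natCast] at this
    simp only [c, if_pos hu, Nat.cast_mul, ← this, Nat.floor_natCast, ws_apply]
  have hc : ∀ u : List (Fin k), u.length < t + 1 →
      Ev fun n => (c n u : ℚ) = (Q u).eval (n : ℚ) := fun u hu => by
    have h0 : Ev fun n : ℕ => 0 ≤ (Q u).eval (n : ℚ) := by
      rcases poly_sign (Q u) with h | h | h
      · exact Ev.of_forall (by simp [h])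
      · exact (Ev.of_eventually h).mono fun n hn => hn.le
      · obtain ⟨r, hr⟩ := (Ev.of_eventually h).exists_sq
        have := hsq r u (by omega)
        simp only [Int.cast_mul, Int.cast_natCast] at this
        rw [Nat.cast_mul, ← this] at hr
        exact absurd hr (by simp)
    refine (h0.and (int_part (Q u))).mono ?_
    rintro n ⟨h3, z, hz⟩
    have := hsq 0 u (by omega)
    simp only [mul_zero, Int.cast_zero] at this
    rw [← this] at hz
    obtain ⟨m, hm⟩ := Int.eq_ofNat_of_zero_le (a := occ (W 0) u + z) (by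
      rw [hz] at h3; exact_mod_cast h3)
    have e : (Q u).eval (n : ℚ) = m := by rw [hz]; exact_mod_cast hm
    simp only [c, if_pos (Nat.lt_succ_iff.1 hu), e, Nat.floor_natCast]
  have hPE : ∀ u, PE fun n => (c n u : ℤ) := fun u => by
    by_cases hu : u.length ≤ t
    · exact ⟨Q u, (hc u (by omega)).mono fun n hn => by simpa using hn⟩
    · exact (PE.const 0).congr (Ev.of_forall fun n => by simp [c, hu])
  let L : ℕ → ℕ := fun n => ∑ a, c n [a]
  have hL : PE fun n => (L n : ℤ) :=
    (PE.sum Finset.univ fun a => hPE [a]).congr (Ev.of_forall fun n => by simp [L])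
  have hLs : ∀ r : ℕ, (L (r * r) : ℤ) = (W r).length := fun r => by
    rw [length_eq_sum]
    simp only [L, Nat.cast_sum]
    exact Finset.sum_congr rfl fun a _ => hcs r [a] ht
  have hD : ∀ u : List (Fin k), u.length < t →
      Ev fun n => Dop (fun u => (c n u : ℤ)) u = L n * c n u := fun u hu => by
    refine PE.ev_eq ((PE.insF u hPE).add ((PE.const _).mul (hPE u))) (hL.mul (hPE u)) fun r => ?_
    have := congrFun (Dop_ws (W r)) u
    simp only [Dop, zsmul_apply] at this ⊢
    rw [insF_congr (g := ws (W r)) u fun v hv => hcs r v (by omega), hLs, hcs r u hu.le, this]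
  have hone : Ev fun n => (c n [] : ℤ) = 1 :=
    PE.ev_eq (hPE []) (PE.const 1) fun r => (hcs r [] (by simp)).trans (ws_one _)
  have hlen : Ev fun n => 0 ≤ (L n : ℤ) + -(t : ℤ) :=
    (hL.add (PE.const _)).ev_nonneg fun r => by have := hl r; rw [hLs]; omega
  rcases hφ.ev (c := fun n u => (c n u : ℤ)) hPE with h | h
  · obtain ⟨n, ⟨⟨⟨⟨h3, h4⟩, h5⟩, h6⟩, h7⟩, h8⟩ := ((((h.and (ev_short _ hc)).and
      (ev_short _ hD)).and hone).and hlen).exists_not_sq
    obtain ⟨w, hw⟩ := h2 _ h3
    have e := eqv_of_top' (g := fun u => (c n u : ℤ)) (n := L n) ht (by omega) h6 h5 w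
      fun u hu => by rw [ws_apply, hw u hu]
    refine h8 (hr n w fun F hF h0 => ?_)
    obtain ⟨P, hP⟩ := hF.transfer Q
    have hP0 : P = 0 := by
      refine P.eq_zero_of_infinite_isRoot (Set.infinite_of_injective_forall_mem
        (f := fun r : ℕ => ((r * r : ℤ) : ℚ)) (fun a b hab => ?_) fun r => ?_)
      · have : a * a = b * b := by simp only at hab; exact_mod_cast hab
        exact Nat.mul_self_inj.1 this
      · have := hP _ _ (hsq r)
        rw [h0] at this
        exact this.symm.trans Int.cast_zero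
    have := hP n w fun u hu => by
      have e1 : occ w u = c n u := Nat.cast_injective (R := ℤ) (e u hu)
      rw [e1, h4 u (by omega), Int.cast_natCast]
    rw [hP0, eval_zero] at this
    exact_mod_cast this
  · obtain ⟨r, hr⟩ := h.exists_sq
    exact hr ((hφ.congr fun u hu => (hcs r u hu).symm).1 (h1 (W r)))

theorem HasQF.mono {k l t : ℕ} (ht : 1 ≤ t) (hk : k ≤ l) (h : HasQF l t) : HasQF k t := by
  obtain ⟨φ, hφ, h1, h2⟩ := h
  have he : Function.Injective (Fin.castLE hk) := Fin.castLE_injective hk
  obtain ⟨σ, s1, s2, s3⟩ : ∃ σ : (List (Fin k) → ℤ) → List (Fin l) → ℤ,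
      (∀ c (u : List (Fin k)), σ c (u.map (Fin.castLE hk)) = c u) ∧
      (∀ c v b, b ∈ v → (∀ a, Fin.castLE hk a ≠ b) → σ c v = 0) ∧
      ∀ w : List (Fin k), σ (fun u => occ w u) = fun v => (occ (w.map (Fin.castLE hk)) v : ℤ) :=
    ⟨fun c => mapS (Fin.castLE hk) c, fun c => mapS_map he c, fun c _ _ hb hb' => mapS_out c hb hb',
      fun w => (ws_map he w).symm⟩
  refine ⟨fun c => φ (σ c), hφ.subst fun v hv => ?_, fun w => ?_, fun c hc => ?_⟩
  · rcases map_or_out (Fin.castLE hk) v with ⟨u, rfl⟩ | ⟨b, hb, hb'⟩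
    · simp only [s1]
      exact Term.var u (by simpa using hv)
    · simp only [s2 _ _ _ hb hb']
      exact Term.const 0
  · simpa only [s3] using h1 (w.map (Fin.castLE hk))
  · have e : ∀ v, ((σ (fun u => (c u : ℤ)) v).toNat : ℤ) = σ (fun u => (c u : ℤ)) v := fun v => by
      rcases map_or_out (Fin.castLE hk) v with ⟨u, rfl⟩ | ⟨b, hb, hb'⟩
      · simp [s1]
      · simp [s2 _ _ _ hb hb']
    obtain ⟨w, hw⟩ := h2 (fun v => (σ (fun u => (c u : ℤ)) v).toNat) (by simpa only [e] using hc)
    have hw' : ∀ u : List (Fin k), u.length = t → occ w (u.map (Fin.castLE hk)) = c u :=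
      fun u hu => by simpa [s1] using hw (u.map (Fin.castLE hk)) (by simpa using hu)
    rcases Nat.lt_or_ge w.length t with hlen | hlen
    · refine ⟨[], fun u hu => ?_⟩
      rw [← hw' u hu]
      obtain ⟨a, u, rfl⟩ := List.exists_cons_of_length_pos (show 0 < u.length by omega)
      rw [occ_nil_left, eq_comm]
      by_contra h0
      have := ((occ_pos_iff _ _).1 (Nat.pos_of_ne_zero h0)).length_le
      rw [List.length_map] at this
      omega
    rcases map_or_out (Fin.castLE hk) w with ⟨w', rfl⟩ | ⟨b, hb, hb'⟩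
    · exact ⟨w', fun u hu => by rw [← hw' u hu, occ_map he]⟩
    · obtain ⟨v, hv1, hv2, hv3⟩ := exists_between (List.singleton_sublist.2 hb) t
        (by simpa using ht) hlen
      have h3 := hw v hv3
      rw [s2 _ _ _ (List.singleton_sublist.1 hv1) hb'] at h3
      have := (occ_pos_iff _ _).2 hv2
      simp at h3
      omega

end Pool.Agent.P.MP_26ce3f_co
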