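import Mathlib

/-! Terms and quantifier-free conditions, with greatest common divisors. -/

namespace Pool.Agent.P.MP_26ce3f_co

/-- Functions of an integer vector given by terms built from the coordinates in `V` and integer
constants by addition, multiplication, integer division and greatest common divisor. -/
inductive Term {ι : Type} (V : Set ι) : ((ι → ℤ) → ℤ) → Prop
  | var (i : ι) (h : i ∈ V) : Term V fun c => c i
  | const (z : ℤ) : Term V fun _ => z
  | add {f g : (ι → ℤ) → ℤ} : Term V f → Term V g → Term V fun c => f c + g c
  | mul {f g : (ι → ℤ) → ℤ} : Term V f → Term V g → Term V fun c => f c * g c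
  | div {f g : (ι → ℤ) → ℤ} : Term V f → Term V g → Term V fun c => f c / g c
  | gcd {f g : (ι → ℤ) → ℤ} : Term V f → Term V g → Term V fun c => (Int.gcd (f c) (g c) : ℤ)

/-- Conditions on an integer vector given by Boolean combinations of inequalities between terms. -/
inductive QF {ι : Type} (V : Set ι) : ((ι → ℤ) → Prop) → Prop
  | le {f g : (ι → ℤ) → ℤ} : Term V f → Term V g → QF V fun c => f c ≤ g c
  | not {φ : (ι → ℤ) → Prop} : QF V φ → QF V fun c => ¬ φ c
  | and {φ ψ : (ι → ℤ) → Prop} : QF V φ → QF V ψ → QF V fun c => φ c ∧ ψ c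

end Pool.Agent.P.MP_26ce3f_co
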