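import Pool.Agent.P.MP_26ce3f_co.Tame
import Pool.Agent.P.MP_26ce3f_co.Dich.Defs

/-! Greatest common divisors of polynomial families are polynomial along suitable multiples. -/

namespace Pool.Agent.P.MP_26ce3f_co

open Polynomial

theorem gcd_scale {r : ℚ} {f g a b : ℤ} {L : ℕ} (h1 : (f : ℚ) * L = r * a)
    (h2 : (g : ℚ) * L = r * b) : (Int.gcd f g : ℚ) * L = |r| * Int.gcd a b := by
  have hr := Rat.mul_den_eq_num r
  have e1 : f * (L * r.den : ℕ) = r.num * a := by
    have : (f : ℚ) * (L * r.den : ℕ) = r.num * a := by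
      push_cast; rw [← hr]; linear_combination r.den * h1
    exact_mod_cast this
  have e2 : g * (L * r.den : ℕ) = r.num * b := by
    have : (g : ℚ) * (L * r.den : ℕ) = r.num * b := by
      push_cast; rw [← hr]; linear_combination r.den * h2
    exact_mod_cast this
  have e3 := Int.gcd_mul_right f (L * r.den : ℕ) g
  rw [e1, e2, Int.gcd_mul_left, Int.natAbs_natCast] at e3
  have e4 : ((r.num.natAbs : ℤ) : ℚ) * Int.gcd a b = Int.gcd f g * (L * r.den) := by
    exact_mod_cast e3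
  rw [Int.natCast_natAbs, Int.cast_abs, ← hr, abs_mul, Nat.abs_cast] at e4
  exact mul_right_cancel₀ (Nat.cast_ne_zero.2 r.den_nz) (by linear_combination -e4)

theorem gcd_congr {a b a' b' x y x' y' z z' R : ℤ} (h : x * a + y * b = R)
    (h' : x' * a' + y' * b' = R) (ha : a' = a + R * z) (hb : b' = b + R * z') :
    Int.gcd a' b' = Int.gcd a b := by
  have d1 : (Int.gcd a b : ℤ) ∣ R :=
    h ▸ ((Int.gcd_dvd_left a b).mul_left x).add ((Int.gcd_dvd_right a b).mul_left y)
  have d2 : (Int.gcd a' b' : ℤ) ∣ R :=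
    h' ▸ ((Int.gcd_dvd_left a' b').mul_left x').add ((Int.gcd_dvd_right a' b').mul_left y')
  refine Nat.dvd_antisymm (Int.dvd_gcd ?_ ?_) (Int.dvd_gcd ?_ ?_)
  · exact (dvd_add_left (d2.mul_right z)).1 (ha ▸ Int.gcd_dvd_left a' b')
  · exact (dvd_add_left (d2.mul_right z')).1 (hb ▸ Int.gcd_dvd_right a' b')
  · exact ha ▸ (Int.gcd_dvd_left a b).add (d1.mul_right z)
  · exact hb ▸ (Int.gcd_dvd_right a b).add (d1.mul_right z')

theorem int_mod (S : ℚ[X]) {L : ℕ} (hL : 0 < L) {a : ℤ} (ha : L * S.eval 0 = a) :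
    Ev fun n => ∃ z : ℤ, L * S.eval (n : ℚ) = (a + L * L * z : ℤ) := by
  refine (int_part (C (L : ℚ)⁻¹ * S)).mono ?_
  rintro n ⟨z, hz⟩
  refine ⟨z, ?_⟩
  have : (L : ℚ) ≠ 0 := by positivity
  simp only [eval_mul, eval_C] at hz
  push_cast
  rw [← ha]
  field_simp at hz
  linear_combination L * hz

theorem den_mul (r : ℚ) {L : ℕ} (h : r.den ∣ L) : ∃ a : ℤ, L * r = a := by
  obtain ⟨m, rfl⟩ := h
  exact ⟨m * r.num, by push_cast; rw [← Rat.mul_den_eq_num r]; ring⟩

theorem PE.gcd {f g : ℕ → ℤ} (hf : PE f) (hg : PE g) : PE fun n => (Int.gcd (f n) (g n) : ℤ) := by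
  obtain ⟨P, hP⟩ := hf
  obtain ⟨Q, hQ⟩ := hg
  by_cases hD : EuclideanDomain.gcd P Q = 0
  · obtain ⟨rfl, rfl⟩ := EuclideanDomain.gcd_eq_zero_iff.1 hD
    refine ⟨0, (hP.and hQ).mono fun n h => ?_⟩
    simp only [eval_zero, Int.cast_eq_zero] at h
    simp [h.1, h.2]
  obtain ⟨P1, h1⟩ := EuclideanDomain.gcd_dvd_left P Q
  obtain ⟨Q1, h2⟩ := EuclideanDomain.gcd_dvd_right P Q
  have h3 := EuclideanDomain.gcd_eq_gcd_ab P Q
  generalize EuclideanDomain.gcdA P Q = A, EuclideanDomain.gcdB P Q = B at h3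
  generalize EuclideanDomain.gcd P Q = D at h1 h2 h3 hD
  have h4 : A * P1 + B * Q1 = 1 := mul_left_cancel₀ hD (by rw [h1, h2] at h3; linear_combination -h3)
  let L := (P1.eval 0).den * (Q1.eval 0).den * ((A.eval 0).den * (B.eval 0).den)
  have hL : 0 < L := by positivity
  obtain ⟨a, ha⟩ := den_mul (P1.eval 0) (L := L) ((dvd_mul_right _ _).mul_right _)
  obtain ⟨b, hb⟩ := den_mul (Q1.eval 0) (L := L) ((dvd_mul_left _ _).mul_right _)
  obtain ⟨x, hx⟩ := den_mul (A.eval 0) (L := L) ((dvd_mul_right _ _).mul_left _)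
  obtain ⟨y, hy⟩ := den_mul (B.eval 0) (L := L) ((dvd_mul_left _ _).mul_left _)
  have bez : ∀ (s : ℚ) (a b x y : ℤ), L * P1.eval s = a → L * Q1.eval s = b → L * A.eval s = x →
      L * B.eval s = y → x * a + y * b = L * L := fun s a b x y ha hb hx hy => by
    have := congrArg (eval s) h4
    simp only [eval_add, eval_mul, eval_one] at this
    have e : (x * a + y * b : ℚ) = L * L := by
      rw [← ha, ← hb, ← hx, ← hy]; linear_combination (L * L : ℚ) * this
    exact_mod_cast e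
  have key : Ev fun n => ((Int.gcd (f n) (g n) : ℤ) : ℚ) =
      |D.eval (n : ℚ)| * (Int.gcd a b / L) := by
    refine (((hP.and hQ).and ((int_mod P1 hL ha).and (int_mod Q1 hL hb))).and
      ((int_mod A hL hx).and (int_mod B hL hy))).mono ?_
    rintro n ⟨⟨⟨e1, e2⟩, ⟨z, e3⟩, ⟨z', e4⟩⟩, ⟨_, e5⟩, ⟨_, e6⟩⟩
    have := gcd_scale (r := D.eval (n : ℚ)) (f := f n) (g := g n) (L := L)
      (by rw [← e3, e1, h1, eval_mul]; ring) (by rw [← e4, e2, h2, eval_mul]; ring)
    rw [gcd_congr (bez _ _ _ _ _ ha hb hx hy) (bez _ _ _ _ _ e3 e4 e5 e6) rfl rfl] at this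
    rw [Int.cast_natCast, ← mul_div_assoc, ← this, mul_div_cancel_right₀ _ (by positivity)]
  rcases poly_sign D with h | h | h
  · exact absurd h hD
  · exact ⟨D * C (Int.gcd a b / L : ℚ), (key.and (Ev.of_eventually h)).mono fun n hn => by
      rw [hn.1, abs_of_pos hn.2, eval_mul, eval_C]⟩
  · exact ⟨-D * C (Int.gcd a b / L : ℚ), (key.and (Ev.of_eventually h)).mono fun n hn => by
      rw [hn.1, abs_of_neg hn.2, eval_mul, eval_C, eval_neg]⟩

variable {ι κ : Type} {V : Set ι} {U : Set κ}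

theorem Term.pe {c : ℕ → ι → ℤ} (hc : ∀ i, PE fun n => c n i) {f : (ι → ℤ) → ℤ}
    (hf : Term V f) : PE fun n => f (c n) := by
  induction hf with
  | var i => exact hc i
  | const z => exact PE.const z
  | add _ _ h1 h2 => exact h1.add h2
  | mul _ _ h1 h2 => exact h1.mul h2
  | div _ _ h1 h2 => exact h1.div h2
  | gcd _ _ h1 h2 => exact h1.gcd h2

theorem QF.ev {c : ℕ → ι → ℤ} (hc : ∀ i, PE fun n => c n i) {φ : (ι → ℤ) → Prop}
    (hφ : QF V φ) : (Ev fun n => φ (c n)) ∨ Ev fun n => ¬ φ (c n) := by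
  induction hφ with
  | le h1 h2 =>
    rcases ((h1.pe hc).add (h2.pe hc).neg).sign with h | h | h
    · exact Or.inl (h.mono fun n hn => by omega)
    · exact Or.inr (h.mono fun n hn => by omega)
    · exact Or.inl (h.mono fun n hn => by omega)
  | not _ ih => exact ih.symm.imp id fun h => h.mono fun n => not_not.2
  | and _ _ h1 h2 =>
    rcases h1 with h1 | h1
    · rcases h2 with h2 | h2
      · exact Or.inl (h1.and h2)
      · exact Or.inr (h2.mono fun n hn h => hn h.2)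
    · exact Or.inr (h1.mono fun n hn h => hn h.1)

theorem Term.congr {c c' : ι → ℤ} (h : ∀ i ∈ V, c i = c' i) {f : (ι → ℤ) → ℤ}
    (hf : Term V f) : f c = f c' := by
  induction hf with
  | var i hi => exact h i hi
  | const z => rfl
  | add _ _ h1 h2 => simp only [h1, h2]
  | mul _ _ h1 h2 => simp only [h1, h2]
  | div _ _ h1 h2 => simp only [h1, h2]
  | gcd _ _ h1 h2 => simp only [h1, h2]

theorem QF.congr {c c' : ι → ℤ} (h : ∀ i ∈ V, c i = c' i) {φ : (ι → ℤ) → Prop}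
    (hφ : QF V φ) : φ c ↔ φ c' := by
  induction hφ with
  | le h1 h2 => simp only [h1.congr h, h2.congr h]
  | not _ ih => exact not_congr ih
  | and _ _ h1 h2 => exact and_congr h1 h2

theorem Term.subst {σ : (κ → ℤ) → ι → ℤ} (hσ : ∀ i ∈ V, Term U fun c => σ c i)
    {f : (ι → ℤ) → ℤ} (hf : Term V f) : Term U fun c => f (σ c) := by
  induction hf with
  | var i h => exact hσ i h
  | const z => exact Term.const z
  | add _ _ h1 h2 => exact h1.add h2
  | mul _ _ h1 h2 => exact h1.mul h2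
  | div _ _ h1 h2 => exact h1.div h2
  | gcd _ _ h1 h2 => exact h1.gcd h2

theorem QF.subst {σ : (κ → ℤ) → ι → ℤ} (hσ : ∀ i ∈ V, Term U fun c => σ c i)
    {φ : (ι → ℤ) → Prop} (hφ : QF V φ) : QF U fun c => φ (σ c) := by
  induction hφ with
  | le h1 h2 => exact QF.le (h1.subst hσ) (h2.subst hσ)
  | not _ h => exact h.not
  | and _ _ h1 h2 => exact h1.and h2

end Pool.Agent.P.MP_26ce3f_co
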