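import Pool.Agent.P.MP_26ce3f_co.Dich.Three

/-! The positive cases and the dichotomy. -/

namespace Pool.Agent.P.MP_26ce3f_co

open List

theorem Term.of_eq {ι : Type} {V : Set ι} {f g : (ι → ℤ) → ℤ} (h : Term V f)
    (e : ∀ c, f c = g c) : Term V g := by
  have : f = g := funext e
  rwa [← this]

theorem QF.eq {ι : Type} {V : Set ι} {f g : (ι → ℤ) → ℤ} (hf : Term V f) (hg : Term V g) :
    QF V fun c => f c = g c := by
  have := (QF.le hf hg).and (QF.le hg hf)
  simpa only [← le_antisymm_iff] using this

theorem prod_desc' (n t : ℕ) :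
    ∏ i ∈ Finset.range t, ((n : ℤ) + -i) = t.factorial * (n.choose t : ℤ) := by
  rw [← Nat.cast_mul, ← Nat.descFactorial_eq_factorial_mul_choose]
  induction t with
  | zero => simp
  | succ k ih =>
    rw [Finset.prod_range_succ, ih, Nat.descFactorial_succ]
    rcases Nat.lt_or_ge n k with h2 | h2
    · simp [Nat.descFactorial_eq_zero_iff_lt.2 h2]
    · push_cast [h2]; ring

theorem hasQF_one_letter {t : ℕ} (ht : 1 ≤ t) : HasQF 1 t := by
  have h : ∀ s : ℕ, Term {u : List (Fin 1) | u.length ≤ t}
      fun c => ∏ i ∈ Finset.range s, (c [0] + -i) := fun s => by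
    induction s with
    | zero => exact Term.const 1
    | succ s ih =>
      exact (ih.mul ((Term.var [0] ht).add (Term.const (-s)))).of_eq fun c => by
        rw [Finset.prod_range_succ]
  refine ⟨_, QF.eq (h t) ((Term.const t.factorial).mul (Term.var (replicate t 0) (by simp))),
    fun w => ?_, fun c hc => ⟨replicate (c [0]) 0, fun u hu => ?_⟩⟩
  · simp only [occ_single, occ_replicate, prod_desc']
  · simp only [prod_desc'] at hc
    obtain rfl : u = replicate t 0 := eq_replicate_iff.2 ⟨hu, fun b _ => Subsingleton.elim _ _⟩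
    rw [occ_replicate, count_replicate_self]
    exact_mod_cast mul_left_cancel₀ (Nat.cast_ne_zero.2 t.factorial_ne_zero) hc

theorem hasQF_degree_one (k : ℕ) : HasQF k 1 := by
  refine ⟨_, QF.le (Term.const 0) (Term.const 0), fun _ => le_rfl, fun c _ =>
    ⟨(∑ a, Multiset.replicate (c [a]) a).toList, fun u hu => ?_⟩⟩
  obtain ⟨a, rfl⟩ := length_eq_one_iff.1 hu
  rw [occ_single, ← Multiset.coe_count, Multiset.coe_toList, Multiset.count_sum']
  simp [Multiset.count_replicate]

theorem exists_ab (p q m : ℕ) (h : m ≤ p * q) :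
    ∃ w : List (Fin 2), w.count 0 = p ∧ w.count 1 = q ∧ occ w [0, 1] = m := by
  induction p generalizing m with
  | zero => exact ⟨replicate q 1, by simp [count_replicate], by simp, by
      rw [occ2_replicate _ _ (by decide)]; omega⟩
  | succ p ih =>
    rcases le_or_gt m (p * q) with h1 | h1
    · obtain ⟨w, a, b, c⟩ := ih m h1
      exact ⟨w ++ [0], by simp [a], by simp [b], by simp [occ2_append, c, occ2_cons]⟩
    rcases le_or_gt q m with h2 | h2
    · obtain ⟨w, a, b, c⟩ := ih (m - q) (by rw [add_mul] at h; omega)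
      exact ⟨0 :: w, by simp [a], by simp [b], by simp [occ2_cons, b, c]; omega⟩
    · obtain rfl : p = 0 := by
        by_contra h3
        have := Nat.mul_le_mul_right q (Nat.pos_of_ne_zero h3)
        omega
      exact ⟨replicate (q - m) 1 ++ 0 :: replicate m 1, by simp [count_replicate],
        by simp; omega,
        by simp [occ2_append, occ2_cons, occ2_replicate, count_replicate]⟩

theorem two_choose (n : ℕ) : 2 * (n.choose 2 : ℤ) = n * (n + -1) := by
  have := prod_desc' n 2
  simp [Finset.prod_range_succ, Nat.factorial] at this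
  linarith

theorem hasQF_two_two : HasQF 2 2 := by
  have v : ∀ u : List (Fin 2), u.length ≤ 2 →
      Term {u : List (Fin 2) | u.length ≤ 2} fun c => c u := fun u hu => Term.var u hu
  have d : ∀ a : Fin 2, QF {u : List (Fin 2) | u.length ≤ 2}
      fun c => 2 * c [a, a] = c [a] * (c [a] + -1) := fun a =>
    QF.eq ((Term.const 2).mul (v _ le_rfl))
      ((v _ (by simp)).mul ((v _ (by simp)).add (Term.const (-1))))
  refine ⟨_, (d 0).and ((d 1).and (QF.eq ((v [0, 1] le_rfl).add (v [1, 0] le_rfl))
    ((v [0] (by simp)).mul (v [1] (by simp))))), fun w => ?_, fun c hc => ?_⟩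
  · simp only [occ_single, occ2_diag, two_choose, true_and]
    exact_mod_cast occ2_swap w (by decide)
  · obtain ⟨h0, h1, h2⟩ := hc
    beta_reduce at h0 h1 h2
    have h3 : c [0, 1] + c [1, 0] = c [0] * c [1] := by exact_mod_cast h2
    obtain ⟨w, a, b, e⟩ := exists_ab (c [0]) (c [1]) (c [0, 1]) (by omega)
    have s := occ2_swap w (show (0 : Fin 2) ≠ 1 by decide)
    rw [← two_choose] at h0 h1
    rw [a, b] at s
    refine ⟨w, fun u hu => ?_⟩
    obtain ⟨x, y, rfl⟩ := length_eq_two.1 hu
    fin_cases x <;> fin_cases y <;> simp [occ2_diag, a, b, e] <;> omega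

theorem hasQF_iff {k t : ℕ} (hk : 1 ≤ k) (ht : 1 ≤ t) :
    HasQF k t ↔ k = 1 ∨ t = 1 ∨ (k = 2 ∧ t = 2) := by
  constructor
  · intro h
    by_contra hc
    rcases Nat.lt_or_ge t 3 with h3 | h3
    · obtain rfl : t = 2 := by omega
      exact not_three_two (h.mono ht (by omega))
    · exact not_two h3 (h.mono ht (by omega))
  · rintro (rfl | rfl | ⟨rfl, rfl⟩)
    exacts [hasQF_one_letter ht, hasQF_degree_one k, hasQF_two_two]

end Pool.Agent.P.MP_26ce3f_co
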