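import Pool.Agent.P.MP_26ce3f_co.Dich.Two

/-! Three letters, degree two. -/

namespace Pool.Agent.P.MP_26ce3f_co

open Ser List

theorem arith3 (Pt : ℤ → ℤ → Prop) (n Q q : ℤ) (hn : 0 ≤ n) (hQ : 40 * (n * n) < Q)
    (hq : q = Q + n) (hb : ∀ j z, Pt j z → 0 ≤ j ∧ j ≤ q ∧ 0 ≤ z ∧ z ≤ q)
    (h0 : Pt 0 0) (h1 : Pt q q)
    (h2 : ∀ j z j' z', Pt j z → Pt j' z' → j < j' →
      j * (q - z) + (j' - j) * (q - z') ≤ q * q - (Q * Q - n))
    (h3 : ∀ u v K, (∀ j z, Pt j z → K ≤ v * (q - j) + u * z) →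
      K * (2 * Q) ≤ (u + v) * (Q * Q - n)) : ∃ y, y * y = n := by
  have hnn : n ≤ n * n := by have := Int.le_self_sq n; rwa [sq] at this
  have hQ0 : 0 < Q := by linarith
  have hq0 : 0 < q := by omega
  have q8 : n < q - 8 * n := by linarith
  have hY : q * q - (Q * Q - n) = 2 * n * q - (n * n - n) := by rw [hq]; ring
  rw [hY] at h2
  have one : ∀ j z, Pt j z → j * (q - z) ≤ 2 * n * q := fun j z h => by
    rcases (hb j z h).1.eq_or_lt with rfl | hj
    · rw [zero_mul]; positivity
    · have := h2 0 0 j z h0 h hj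
      linarith
  have sL : ∀ j z, Pt j z → 2 * j ≤ q → z ≤ j → j ≤ 4 * n := fun j z h e1 e2 => by
    have := one j z h
    have : 0 ≤ j * (q - 2 * z) := mul_nonneg (hb j z h).1 (by omega)
    exact le_of_mul_le_mul_right (by linarith) hq0
  have sR : ∀ j z, Pt j z → q < 2 * j → q - z ≤ 4 * n := fun j z h e1 => by
    have := one j z h
    have : 0 ≤ (2 * j - q) * (q - z) := mul_nonneg (by omega) (by have := hb j z h; omega)
    exact le_of_mul_le_mul_right (by linarith) hq0
  obtain ⟨gL, ⟨j1, z1, p1, l1, e1⟩, mL⟩ := Int.exists_greatest_of_bdd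
    (P := fun g => ∃ j z, Pt j z ∧ 2 * j ≤ q ∧ j - z = g)
    ⟨q, by rintro _ ⟨j, z, h, -, rfl⟩; have := hb j z h; omega⟩ ⟨0, 0, 0, h0, by omega, rfl⟩
  obtain ⟨gR, ⟨j2, z2, p2, l2, e2⟩, mR⟩ := Int.exists_greatest_of_bdd
    (P := fun g => ∃ j z, Pt j z ∧ q < 2 * j ∧ j - z = g)
    ⟨q, by rintro _ ⟨j, z, h, -, rfl⟩; have := hb j z h; omega⟩ ⟨0, q, q, h1, by omega, by ring⟩
  have gL0 : 0 ≤ gL := mL 0 ⟨0, 0, h0, by omega, rfl⟩
  have gR0 : 0 ≤ gR := mR 0 ⟨q, q, h1, by omega, by ring⟩
  have gL4 : gL ≤ 4 * n := by have := sL _ _ p1 l1 (by omega); have := hb _ _ p1; omega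
  have gR4 : gR ≤ 4 * n := by have := sR _ _ p2 l2; have := hb _ _ p2; omega
  have key : ∀ j z j' z', Pt j z → 2 * j ≤ q → j - z = gL → Pt j' z' → q < 2 * j' →
      j' - z' = gR → q * (gL + gR) - gL * gR + (z + (q - j')) * (q - 8 * n) ≤
        2 * n * q - (n * n - n) := fun j z j' z' p l e p' l' e' => by
    have a1 := h2 j z j' z' p p' (by omega)
    have a2 := sL j z p l (by omega)
    have a3 := sR j' z' p' l'
    have a4 := hb j z p
    have a5 := hb j' z' p'
    have a6 : 0 ≤ z * (8 * n - j - (q - z')) := mul_nonneg a4.2.2.1 (by omega)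
    have a7 : 0 ≤ (q - j') * (8 * n - (j - z) - (q - z')) := mul_nonneg (by omega) (by omega)
    rw [← e, ← e']
    linarith
  have low : ∀ δ, 0 ≤ δ → (∀ j z, Pt j z → 2 * j ≤ q → j - z = gL → -δ ≤ (gR - gL) * z) →
      (∀ j z, Pt j z → q < 2 * j → j - z = gR → -δ ≤ (gL - gR) * (q - j)) →
      ((q - gL) * (q - gR) - δ) * (2 * Q) ≤ ((q - gL) + (q - gR)) * (Q * Q - n) :=
    fun δ hδ dL dR => h3 _ _ _ fun j z p => by
      have a := hb j z p
      rcases le_or_gt j z with c | c
      · rcases le_total gL gR with d | d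
        · have : 0 ≤ (gR - gL) * z := mul_nonneg (by omega) a.2.2.1
          have : 0 ≤ (q - gR) * (z - j + gL) := mul_nonneg (by omega) (by omega)
          linarith
        · have : 0 ≤ (gL - gR) * (q - j) := mul_nonneg (by omega) (by omega)
          have : 0 ≤ (q - gL) * (z - j + gR) := mul_nonneg (by omega) (by omega)
          linarith
      rcases le_or_gt (2 * j) q with l | l
      · rcases (mL _ ⟨j, z, p, l, rfl⟩).eq_or_lt with d | d
        · have := dL j z p l d
          obtain rfl : j = z + gL := by omega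
          linarith
        · have := sL j z p l c.le
          have : 0 ≤ (q - gR) * (gL - (j - z) - 1) := mul_nonneg (by omega) (by omega)
          have : 0 ≤ (gR - gL + 4 * n) * z := mul_nonneg (by omega) a.2.2.1
          have : 0 ≤ n * (4 * n - z) := mul_nonneg hn (by omega)
          linarith
      · rcases (mR _ ⟨j, z, p, l, rfl⟩).eq_or_lt with d | d
        · have := dR j z p l d
          obtain rfl : j = z + gR := by omega
          linarith
        · have := sR j z p l
          have : 0 ≤ (q - gL) * (gR - (j - z) - 1) := mul_nonneg (by omega) (by omega)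
          have : 0 ≤ (gL - gR + 4 * n) * (q - j) := mul_nonneg (by omega) (by omega)
          have : 0 ≤ n * (4 * n - (q - j)) := mul_nonneg hn (by omega)
          linarith
  have k0 := key _ _ _ _ p1 l1 e1 p2 l2 e2
  have gg0 : 0 ≤ gL * gR := mul_nonneg gL0 gR0
  have gg : gL * gR ≤ 4 * n * (4 * n) := mul_le_mul gL4 gR4 gR0 (by omega)
  have z0 : 0 ≤ (z1 + (q - j2)) * (q - 8 * n) :=
    mul_nonneg (by have := hb _ _ p1; have := hb _ _ p2; omega) (by omega)
  have G2 : gL + gR ≤ 2 * n := by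
    by_contra hc
    have : 0 ≤ q * (gL + gR - 2 * n - 1) := mul_nonneg hq0.le (by omega)
    linarith
  rcases G2.eq_or_lt with G | G
  · obtain rfl : gR = 2 * n - gL := by omega
    have zz : ∀ j z j' z', Pt j z → 2 * j ≤ q → j - z = gL → Pt j' z' → q < 2 * j' →
        j' - z' = 2 * n - gL → z = 0 ∧ j' = q := fun j z j' z' p l e p' l' e' => by
      have a1 := key j z j' z' p l e p' l' e'
      have a4 := hb j z p
      have a5 := hb j' z' p'
      have a6 := mul_self_nonneg (gL - n)
      have : z + (q - j') < 1 := by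
        by_contra hc
        have : 0 ≤ (z + (q - j') - 1) * (q - 8 * n) := mul_nonneg (by omega) (by omega)
        linarith
      omega
    have := low 0 le_rfl (fun j z p l e => by rw [(zz j z _ _ p l e p2 l2 e2).1]; simp)
      fun j z p l e => by rw [(zz _ _ j z p1 l1 e1 p l e).2]; simp
    have a1 : (q - gL) * (q - (2 * n - gL)) ≤ Q * Q - n := by
      rw [show q - gL + (q - (2 * n - gL)) = 2 * Q by omega, sub_zero, mul_comm (2 * Q)] at this
      exact le_of_mul_le_mul_right this (by omega)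
    exact ⟨gL - n, by subst hq; linarith⟩
  · exfalso
    have := low (16 * (n * n)) (by omega) (fun j z p l e => by
        have := sL j z p l (by omega)
        have := hb j z p
        have : 0 ≤ (gR - gL + 4 * n) * z := mul_nonneg (by omega) (by omega)
        have : 0 ≤ n * (4 * n - z) := mul_nonneg hn (by omega)
        linarith)
      fun j z p l e => by
        have := sR j z p l
        have := hb j z p
        have : 0 ≤ (gL - gR + 4 * n) * (q - j) := mul_nonneg (by omega) (by omega)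
        have : 0 ≤ n * (4 * n - (q - j)) := mul_nonneg hn (by omega)
        linarith
    obtain ⟨D, hD⟩ : ∃ D, gR = 2 * n - D - gL := ⟨2 * n - gL - gR, by ring⟩
    have D1 : 1 ≤ D := by omega
    have a1 : Q * Q - n * n + D * Q - 16 * (n * n) ≤ (q - gL) * (q - gR) - 16 * (n * n) := by
      have : 0 ≤ D * n := by positivity
      subst hq hD; linarith
    have a2 := mul_le_mul_of_nonneg_right a1 (show 0 ≤ 2 * Q by omega)
    rw [show q - gL + (q - gR) = 2 * Q + D by omega] at this
    have a3 := mul_nonneg hn (show 0 ≤ 2 * Q + D by omega)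
    have a4 := mul_nonneg (show 0 ≤ D - 1 by omega) (mul_pos hQ0 hQ0).le
    have a5 := mul_pos (show 0 < Q - 34 * (n * n) by omega) hQ0
    linarith

variable {α : Type} [DecidableEq α]

theorem weighted {a b c : α} (hb : a ≠ b) (hc : a ≠ c) (u v K : ℤ) (w : List α) (z : ℤ)
    (h : ∀ P S, w = P ++ S → K ≤ v * S.count b + u * (z + P.count c)) :
    K * w.count a ≤ v * occ w [a, b] + u * (occ w [c, a] + z * w.count a) := by
  induction w generalizing z with
  | nil => simp
  | cons d w ih =>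
    have h1 := ih (z + if d = c then 1 else 0) fun P S e => by
      have := h (d :: P) S (by rw [e]; rfl)
      simp only [count_cons, beq_iff_eq] at this
      push_cast at this
      rwa [add_assoc, add_comm _ (P.count c : ℤ)]
    have h2 := h [] _ rfl
    simp only [occ2_cons, count_cons, beq_iff_eq] at h2 ⊢
    by_cases e1 : d = a
    · subst e1
      simp only [hb, hc, if_true, if_false] at h1 h2 ⊢
      simp at h2
      push_cast
      linarith
    · by_cases e2 : d = c
      · subst e2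
        simp only [e1, if_true, if_false] at h1 ⊢
        push_cast
        linarith
      · simp only [e1, e2, if_false] at h1 ⊢
        push_cast
        linarith

theorem rigid3 (w : List (Fin 3)) (n Q : ℤ) (hn : 0 ≤ n) (hQ : 40 * (n * n) < Q)
    (ca : (w.count 0 : ℤ) = 2 * Q) (cb : (w.count 1 : ℤ) = Q + n) (cc : (w.count 2 : ℤ) = Q + n)
    (ab : (occ w [0, 1] : ℤ) = Q * Q - n) (ac : (occ w [2, 0] : ℤ) = Q * Q - n)
    (bc : (occ w [2, 1] : ℤ) = Q * Q - n) : ∃ y, y * y = n := by
  refine arith3 (fun j z => ∃ P S, w = P ++ S ∧ (P.count 1 : ℤ) = j ∧ (P.count 2 : ℤ) = z) n Q _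
    hn hQ rfl ?_ ⟨[], w, rfl, rfl, rfl⟩ ⟨w, [], by simp, cb, cc⟩ ?_ fun u v K h => ?_
  · rintro _ _ ⟨P, S, rfl, rfl, rfl⟩
    simp only [count_append] at cb cc
    omega
  · rintro _ _ _ _ ⟨P, S, rfl, rfl, rfl⟩ ⟨P', S', e, rfl, rfl⟩ hj
    rcases append_eq_append_iff.1 e with ⟨M, rfl, rfl⟩ | ⟨M, rfl, rfl⟩
    · have s := occ2_swap (P ++ (M ++ S')) (show (1 : Fin 3) ≠ 2 by decide)
      have s' : (occ (P ++ (M ++ S')) [1, 2] : ℤ) = (Q + n) * (Q + n) - (Q * Q - n) := by
        rw [← bc]; nth_rewrite 1 [← cb]; rw [← cc]; omega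
      rw [← s', ← cc]
      simp only [occ2_append, count_append]
      push_cast
      linarith [Int.natCast_nonneg (occ P [1, 2]), Int.natCast_nonneg (occ M [1, 2]),
        Int.natCast_nonneg (occ S' [1, 2])]
    · simp only [count_append] at hj
      omega
  · have := weighted (a := (0 : Fin 3)) (b := 1) (c := 2) (by decide) (by decide) u v K w 0
      fun P S e => by
        have := h _ _ ⟨P, S, e, rfl, rfl⟩
        rw [← cb, e, count_append] at this
        simpa using this
    rw [ca, ab, ac] at this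
    linarith

/-- The extremal words. -/
def w6 (i j A B : ℕ) : List (Fin 3) :=
  replicate i 1 ++ (replicate A 0 ++ (replicate A 2 ++ (replicate B 1 ++ (replicate B 0 ++
    replicate j 2))))

theorem w6_val (i j A B : ℕ) : (w6 i j A B).count 0 = A + B ∧ (w6 i j A B).count 1 = i + B ∧
    (w6 i j A B).count 2 = A + j ∧ occ (w6 i j A B) [0, 1] = A * B ∧
    occ (w6 i j A B) [2, 0] = A * B ∧ occ (w6 i j A B) [2, 1] = A * B := by
  simp [w6, occ2_append, occ2_replicate, count_replicate]

theorem eqv_three {v w : List (Fin 3)} (h0 : v.count 0 = w.count 0) (h1 : v.count 1 = w.count 1)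
    (h2 : v.count 2 = w.count 2) (ab : occ v [0, 1] = occ w [0, 1])
    (ca : occ v [2, 0] = occ w [2, 0]) (cb : occ v [2, 1] = occ w [2, 1]) :
    Eqv 2 (ws v) (ws w) := by
  have s1 := occ2_swap v (show (0 : Fin 3) ≠ 1 by decide)
  have s2 := occ2_swap v (show (2 : Fin 3) ≠ 0 by decide)
  have s3 := occ2_swap v (show (2 : Fin 3) ≠ 1 by decide)
  simp only [h0, h1, h2, ← occ2_swap w (show (0 : Fin 3) ≠ 1 by decide),
    ← occ2_swap w (show (2 : Fin 3) ≠ 0 by decide),
    ← occ2_swap w (show (2 : Fin 3) ≠ 1 by decide)] at s1 s2 s3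
  intro u hu
  match u, hu with
  | [], _ => simp
  | [x], _ => fin_cases x <;> simp [ws_apply, occ_single, h0, h1, h2]
  | [x, y], _ =>
    fin_cases x <;> fin_cases y <;> simp [ws_apply, occ2_diag, h0, h1, h2] <;> omega

/-- A quartic block length. -/
def qt (y s : ℤ) : ℕ := (40 * (s * s * (s * s)) + 1 + y * s).toNat

theorem qt_nonneg {y : ℤ} (h : |y| ≤ 1) (s : ℤ) : 0 ≤ 40 * (s * s * (s * s)) + 1 + y * s := by
  have := qd_nonneg h s
  nlinarith [Int.le_self_sq (s * s), mul_self_nonneg (s * s)]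

theorem qt_cast {y : ℤ} (h : |y| ≤ 1) (s : ℤ) :
    (qt y s : ℤ) = 40 * (s * s * (s * s)) + 1 + y * s := Int.toNat_of_nonneg (qt_nonneg h s)

theorem PW.qt (a : α) {y : ℤ} (h : |y| ≤ 1) : PW fun s => replicate (qt y s) a :=
  PW.rep a ((((PZ.const 40).mul ((PZ.id.mul PZ.id).mul (PZ.id.mul PZ.id))).add (PZ.const 1)).add
    ((PZ.const y).mul PZ.id)) (qt_nonneg h)

theorem Lin.val {d : ℕ} (u : List α) (hu : u.length ≤ d) {P : ℤ → ℤ} (hP : PZ P) :
    Lin d fun n w => (Pool.Agent.P.MP_26ce3f_co.occ w u : ℤ) - P n :=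
  ((Lin.occ u hu).add ((Lin.par d hP).smul (PZ.const (-1)))).of_eq fun n w => by ring

theorem not_three_two : ¬ HasQF 3 2 := by
  have c1 := qd_cast (x := 1) (y := 1) (by decide)
  have c2 := qd_cast (x := 1) (y := -1) (by decide)
  have c3 := qt_cast (y := 1) (by decide)
  have c4 := qt_cast (y := -1) (by decide)
  refine not_hasQF (by omega) (fun s => w6 (qd 1 1 s) (qd 1 (-1) s) (qt 1 s) (qt (-1) s))
    ((PW.qd 1 (by decide)).append ((PW.qt 0 (by decide)).append ((PW.qt 2 (by decide)).append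
      ((PW.qt 1 (by decide)).append ((PW.qt 0 (by decide)).append (PW.qd 2 (by decide)))))))
    (fun s => ?_) (fun s => ?_) fun n w h => ?_
  · refine eqv_three ?_ ?_ ?_ ?_ ?_ ?_ <;> simp only [w6_val] <;> zify <;>
      simp only [c1, c2, c3, c4] <;> ring
  · have := count_le_length (a := 0) (l := w6 (qd 1 1 s) (qd 1 (-1) s) (qt 1 s) (qt (-1) s))
    rw [(w6_val ..).1] at this
    have a3 := c3 s
    have a4 := c4 s
    have := mul_self_nonneg (s * s)
    omega
  · have pQ : PZ fun n => 40 * (n * n) + 1 := (PZ.quad 40 0 1).of_eq fun n => by ring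
    have pV : PZ fun n => (40 * (n * n) + 1) * (40 * (n * n) + 1) - n :=
      ((pQ.mul pQ).add (PZ.quad 0 (-1) 0)).of_eq fun n => by ring
    have e0 := h _ (Lin.val [0] (by simp) ((PZ.const 2).mul pQ)) fun s => by
      simp only [occ_single, w6_val, Nat.cast_add, c3, c4]; ring
    have e1 := h _ (Lin.val [1] (by simp) (pQ.add PZ.id)) fun s => by
      simp only [occ_single, w6_val, Nat.cast_add, c1, c4]; ring
    have e2 := h _ (Lin.val [2] (by simp) (pQ.add PZ.id)) fun s => by
      simp only [occ_single, w6_val, Nat.cast_add, c2, c3]; ring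
    have e3 := h _ (Lin.val [0, 1] (by simp) pV) fun s => by
      simp only [w6_val, Nat.cast_mul, c3, c4]; ring
    have e4 := h _ (Lin.val [2, 0] (by simp) pV) fun s => by
      simp only [w6_val, Nat.cast_mul, c3, c4]; ring
    have e5 := h _ (Lin.val [2, 1] (by simp) pV) fun s => by
      simp only [w6_val, Nat.cast_mul, c3, c4]; ring
    rw [occ_single] at e0 e1 e2
    rw [sub_eq_zero] at e0 e1 e2 e3 e4 e5
    obtain ⟨y, hy⟩ := rigid3 w n _ (Int.natCast_nonneg n) (lt_add_one _) e0 e1 e2 e3 e4 e5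
    exact sq_of_int hy

end Pool.Agent.P.MP_26ce3f_co
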