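import Pool.Agent.P.MP_26ce3f_co.Dich.Core

/-! Two letters, degree at least three. -/

namespace Pool.Agent.P.MP_26ce3f_co

open Ser List

variable {α : Type} [DecidableEq α]

theorem exists_pos (a b : α) (w : List α) : ∃ x : ℕ → ℤ, ∀ G : ℤ → ℤ → ℤ,
    suf b (fun v => G (v.count b) (v.count a)) w = ∑ j ∈ Finset.range (w.count b), G j (x j) := by
  induction w with
  | nil => exact ⟨fun _ => 0, fun G => by simp [suf]⟩
  | cons d w ih =>
    obtain ⟨x, hx⟩ := ih
    by_cases h : d = b
    · subst h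
      refine ⟨Function.update x (w.count d) (w.count a), fun G => ?_⟩
      rw [suf, if_pos rfl, hx, count_cons_self, Finset.sum_range_succ, Function.update_self]
      congr 1
      exact Finset.sum_congr rfl fun j hj => by
        rw [Function.update_of_ne (Finset.mem_range.1 hj).ne]
    · exact ⟨x, fun G => by rw [suf, if_neg h, hx, count_cons_of_ne h, add_zero]⟩

theorem suf_rep {a b : α} (h : a ≠ b) (f : List α → ℤ) (m : ℕ) (w : List α) :
    suf b f (replicate m a ++ w) = suf b f w := by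
  induction m with
  | zero => rfl
  | succ m ih => rw [replicate_succ, cons_append, suf, if_neg h, ih, add_zero]

theorem Lin.dev (a b : α) (x y : ℤ) {d : ℕ} {F : ℤ → List α → ℤ} (h : Lin d F) :
    Lin (d + 1) fun n w => ((w.count a : ℤ) - (x * w.count b + y) * n) * F n w :=
  (((h.cnt a).add ((h.cnt b).smul (PZ.quad 0 (-x) 0))).add
    ((h.smul (PZ.quad 0 (-y) 0)).mono (by omega))).of_eq fun n w => by ring

theorem Lin.one (d : ℕ) : Lin d fun _ (_ : List α) => (1 : ℤ) := Lin.par d (PZ.const 1)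

theorem Lin.count (b : α) (q : ℤ) {d : ℕ} (hd : 1 ≤ d) :
    Lin d fun _ (w : List α) => (w.count b : ℤ) - q :=
  ((((Lin.one 0).cnt b).mono hd).add (Lin.par d (PZ.const (-q)))).of_eq fun n w => by ring

/-- Iterated derivatives of the series of a power of the first letter. -/
def E (m i : ℕ) : Ser (Fin 2) := fun u => ws (replicate m (0 : Fin 2)) (replicate i 0 ++ u)

theorem E_eq (m : ℕ) : ws (replicate m (0 : Fin 2)) = E m 0 := rfl

theorem E_nil (m i : ℕ) : E m i [] = m.choose i := by
  simp [E, ws_apply, occ_replicate]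

theorem der_E_zero (m i : ℕ) : der 0 (E m i) = E m (i + 1) := by
  ext v
  simp [E, replicate_succ']

theorem der_E_one (m i : ℕ) : der 1 (E m i) = 0 := by
  ext v
  rw [der_apply, E, ws_apply, zero_apply, Nat.cast_eq_zero]
  by_contra h
  have := ((occ_pos_iff _ _).1 (Nat.pos_of_ne_zero h)).subset (a := 1) (by simp)
  simp at this

theorem E_zero (m i : ℕ) (g : Ser (Fin 2)) (u : List (Fin 2)) :
    (E m i * g) (0 :: u) = m.choose i * g (0 :: u) + (E m (i + 1) * g) u := by
  rw [mul_cons, E_nil, der_E_zero]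

theorem E_one (m i : ℕ) (g : Ser (Fin 2)) (u : List (Fin 2)) :
    (E m i * g) (1 :: u) = m.choose i * g (1 :: u) := by
  rw [mul_cons, E_nil, der_E_one, zero_mul, zero_apply, add_zero]

theorem E_zero' (m i : ℕ) (u : List (Fin 2)) : E m i (0 :: u) = E m (i + 1) u :=
  congrFun (der_E_zero m i) u

theorem E_one' (m i : ℕ) (u : List (Fin 2)) : E m i (1 :: u) = 0 := congrFun (der_E_one m i) u

theorem ws_blk (m : ℕ) (w : List (Fin 2)) :
    ws (replicate m 0 ++ 1 :: w) = E m 0 * (ws [1] * ws w) := by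
  rw [ws_append, ws_cons, E_eq]

theorem B_zero (g : Ser (Fin 2)) (u : List (Fin 2)) :
    (ws [(1 : Fin 2)] * g) (0 :: u) = g (0 :: u) := by
  rw [mul_cons, der_ws_single]; simp

theorem B_one (g : Ser (Fin 2)) (u : List (Fin 2)) :
    (ws [(1 : Fin 2)] * g) (1 :: u) = g (1 :: u) + g u := by
  rw [mul_cons, der_ws_single]; simp

theorem ch3 (m : ℕ) : (m.choose 3 : ℚ) = m * (m - 1) * (m - 2) / 6 := by
  rw [Nat.cast_choose_eq_descPochhammer_div]
  simp [descPochhammer_succ_eval, Nat.factorial]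

theorem ch4 (m : ℕ) : (m.choose 4 : ℚ) = m * (m - 1) * (m - 2) * (m - 3) / 24 := by
  rw [Nat.cast_choose_eq_descPochhammer_div]
  simp [descPochhammer_succ_eval, Nat.factorial]

/-- Words with three occurrences of the second letter. -/
def w3 (a b c d : ℕ) : List (Fin 2) :=
  replicate a 0 ++ 1 :: (replicate b 0 ++ 1 :: (replicate c 0 ++ 1 :: replicate d 0))

theorem w3_eqv {a b c d : ℕ} {N s : ℚ} (ha : (a : ℚ) = N + s) (hb : (b : ℚ) = N - 3 * s)
    (hc : (c : ℚ) = N + 3 * s) (hd : (d : ℚ) = N - s) :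
    Eqv 3 (ws (w3 a b c d)) (ws (w3 d c b a)) := by
  intro u hu
  simp only [w3, ws_blk, E_eq]
  apply Int.cast_injective (α := ℚ)
  match u, hu with
  | [], _ => simp [E_nil]
  | [x], _ =>
    fin_cases x <;> simp [E_nil, E_zero, E_one, E_zero', E_one', B_zero, B_one, ha, hb, hc, hd]; ring
  | [x, y], _ =>
    fin_cases x <;> fin_cases y <;>
      simp [E_nil, E_zero, E_one, E_zero', E_one', B_zero, B_one, Nat.cast_choose_two, ha, hb, hc, hd] <;> ring
  | [x, y, z], _ =>
    fin_cases x <;> fin_cases y <;> fin_cases z <;>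
      simp [E_nil, E_zero, E_one, E_zero', E_one', B_zero, B_one, Nat.cast_choose_two, ch3, ha, hb, hc, hd] <;> ring

/-- Words with four occurrences of the second letter. -/
def w4 (a b c : ℕ) : List (Fin 2) :=
  replicate a 0 ++ 1 :: (replicate b 0 ++ 1 :: (replicate c 0 ++ 1 :: (replicate b 0 ++ 1 ::
    replicate a 0)))

theorem w4_eqv {a b c a' b' c' : ℕ} {N s : ℚ} (ha : (a : ℚ) = N + s) (hb : (b : ℚ) = N - 4 * s)
    (hc : (c : ℚ) = N + 6 * s) (ha' : (a' : ℚ) = N - s) (hb' : (b' : ℚ) = N + 4 * s)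
    (hc' : (c' : ℚ) = N - 6 * s) : Eqv 4 (ws (w4 a b c)) (ws (w4 a' b' c')) := by
  intro u hu
  simp only [w4, ws_blk, E_eq]
  apply Int.cast_injective (α := ℚ)
  match u, hu with
  | [], _ => simp [E_nil]
  | [x], _ =>
    fin_cases x <;> simp [E_nil, E_zero, E_one, E_zero', E_one', B_zero, B_one, ha, hb, hc, ha', hb', hc']; ring
  | [x, y], _ =>
    fin_cases x <;> fin_cases y <;>
      simp [E_nil, E_zero, E_one, E_zero', E_one', B_zero, B_one, Nat.cast_choose_two, ha, hb, hc, ha', hb', hc'] <;>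
      ring
  | [x, y, z], _ =>
    fin_cases x <;> fin_cases y <;> fin_cases z <;>
      simp [E_nil, E_zero, E_one, E_zero', E_one', B_zero, B_one, Nat.cast_choose_two, ch3, ha, hb, hc, ha', hb',
        hc'] <;> ring
  | [x, y, z, v], _ =>
    fin_cases x <;> fin_cases y <;> fin_cases z <;> fin_cases v <;>
      simp [E_nil, E_zero, E_one, E_zero', E_one', B_zero, B_one, Nat.cast_choose_two, ch3, ch4, ha, hb, hc, ha',
        hb', hc'] <;> ring

/-- A quadratic block length. -/
def qd (x y s : ℤ) : ℕ := (x * (s * s) + y * s + 0).toNat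

theorem qd_nonneg {x y : ℤ} (h : |y| ≤ x) (s : ℤ) : 0 ≤ x * (s * s) + y * s + 0 := by
  have h1 : |s| ≤ s * s := by
    rw [← abs_mul_abs_self]; nlinarith [abs_nonneg s, Int.le_self_sq |s|]
  have h2 := neg_abs_le (y * s)
  rw [abs_mul] at h2
  nlinarith [mul_le_mul h h1 (abs_nonneg s) ((abs_nonneg y).trans h)]

theorem qd_cast {x y : ℤ} (h : |y| ≤ x) (s : ℤ) : (qd x y s : ℤ) = x * (s * s) + y * s := by
  rw [qd, Int.toNat_of_nonneg (qd_nonneg h s), add_zero]

theorem qd_castq {x y : ℤ} (h : |y| ≤ x) (s : ℤ) : (qd x y s : ℚ) = x * (s * s) + y * s := by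
  exact_mod_cast qd_cast h s

theorem qd_neg (x y s : ℤ) : qd x y (-s) = qd x (-y) s := by simp [qd]

theorem PW.qd (a : α) {x y : ℤ} (h : |y| ≤ x) : PW fun s => replicate (qd x y s) a :=
  PW.rep a (PZ.quad x y 0) (qd_nonneg h)

theorem suf_rep' {a b : α} (h : a ≠ b) (f : List α → ℤ) (m : ℕ) : suf b f (replicate m a) = 0 := by
  have := suf_rep h f m []
  rwa [append_nil] at this

theorem sq_of_int {y : ℤ} {n : ℕ} (h : y * y = n) : ∃ r, r * r = n :=
  ⟨y.natAbs, by have := Int.natAbs_mul_self' y; omega⟩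

theorem not_two_three : ¬ HasQF 2 3 := by
  have h01 : (0 : Fin 2) ≠ 1 := by decide
  have c1 := qd_cast (x := 3) (y := 1) (by decide)
  have c2 := qd_cast (x := 3) (y := -3) (by decide)
  have c3 := qd_cast (x := 3) (y := 3) (by decide)
  have c4 := qd_cast (x := 3) (y := -1) (by decide)
  refine not_hasQF (by omega) (fun s => w3 (qd 3 1 s) (qd 3 (-3) s) (qd 3 3 s) (qd 3 (-1) s))
    ((PW.qd 0 (by decide)).append (((PW.qd 0 (by decide)).append (((PW.qd 0 (by decide)).append
      ((PW.qd 0 (by decide)).cons 1)).cons 1)).cons 1)) (fun s => ?_)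
    (fun s => by simp [w3]; omega) fun n w h => ?_
  · simp only [qd_neg, neg_neg]
    refine w3_eqv (N := 3 * (s * s)) (s := s) ?_ ?_ ?_ ?_ <;> rw [qd_castq (by decide)] <;>
      push_cast <;> ring
  · have d1 := (Lin.one 0).dev (0 : Fin 2) 1 3 3
    have e0 := h _ (Lin.count 1 3 (by omega)) fun s => by simp [w3, count_replicate]
    have e1 := h _ ((d1.suf 1).mono (by omega)) fun s => by
      simp [w3, suf, suf_rep, suf_rep', count_replicate, c2, c3, c4]; ring
    have e2 := h _ ((d1.cnt 1).suf 1) fun s => by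
      simp [w3, suf, suf_rep, suf_rep', count_replicate, c2, c3, c4]; ring
    have e3 := h _ (((d1.dev 0 1 3 3).suf 1).add (Lin.par 3 (PZ.quad 0 (-6) 0))) fun s => by
      simp [w3, suf, suf_rep, suf_rep', count_replicate, c2, c3, c4]; ring
    obtain ⟨x, hx⟩ := exists_pos (0 : Fin 2) 1 w
    rw [show w.count 1 = 3 by omega] at hx
    rw [hx fun j x => (x - (3 * j + 3) * n) * 1] at e1
    rw [hx fun j x => j * ((x - (3 * j + 3) * n) * 1)] at e2
    rw [hx fun j x => (x - (3 * j + 3) * n) * ((x - (3 * j + 3) * n) * 1)] at e3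
    simp only [Finset.sum_range_succ, Finset.sum_range_zero] at e1 e2 e3
    push_cast at e1 e2 e3
    have f1 : x 1 = 6 * n - 2 * (x 2 - 9 * n) := by linarith
    have f0 : x 0 = 3 * n + (x 2 - 9 * n) := by linarith
    rw [f0, f1] at e3
    exact sq_of_int (y := x 2 - 9 * n) (by linarith)

theorem not_two_four : ¬ HasQF 2 4 := by
  have h01 : (0 : Fin 2) ≠ 1 := by decide
  have c1 := qd_cast (x := 6) (y := 1) (by decide)
  have c2 := qd_cast (x := 6) (y := -4) (by decide)
  have c3 := qd_cast (x := 6) (y := 6) (by decide)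
  refine not_hasQF (by omega) (fun s => w4 (qd 6 1 s) (qd 6 (-4) s) (qd 6 6 s))
    ((PW.qd 0 (by decide)).append (((PW.qd 0 (by decide)).append (((PW.qd 0 (by decide)).append
      (((PW.qd 0 (by decide)).append ((PW.qd 0 (by decide)).cons 1)).cons 1)).cons 1)).cons 1))
    (fun s => ?_) (fun s => by simp [w4]; omega) fun n w h => ?_
  · refine w4_eqv (N := 6 * (s * s)) (s := s) ?_ ?_ ?_ ?_ ?_ ?_ <;> rw [qd_castq (by decide)] <;>
      push_cast <;> ring
  · have d1 := (Lin.one 0).dev (0 : Fin 2) 1 6 6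
    have e0 := h _ (Lin.count 1 4 (by omega)) fun s => by simp [w4, count_replicate]
    have e1 := h _ ((d1.suf 1).mono (by omega)) fun s => by
      simp [w4, suf, suf_rep, suf_rep', count_replicate, c1, c2, c3]; ring
    have e2 := h _ (((d1.cnt 1).suf 1).mono (by omega)) fun s => by
      simp [w4, suf, suf_rep, suf_rep', count_replicate, c1, c2, c3]; ring
    have e4 := h _ (((d1.cnt 1).cnt 1).suf 1) fun s => by
      simp [w4, suf, suf_rep, suf_rep', count_replicate, c1, c2, c3]; ring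
    have e3 := h _ ((((d1.dev 0 1 6 6).suf 1).add (Lin.par 3 (PZ.quad 0 (-20) 0))).mono
      (by omega)) fun s => by
      simp [w4, suf, suf_rep, suf_rep', count_replicate, c1, c2, c3]; ring
    obtain ⟨x, hx⟩ := exists_pos (0 : Fin 2) 1 w
    rw [show w.count 1 = 4 by omega] at hx
    rw [hx fun j x => (x - (6 * j + 6) * n) * 1] at e1
    rw [hx fun j x => j * ((x - (6 * j + 6) * n) * 1)] at e2
    rw [hx fun j x => j * (j * ((x - (6 * j + 6) * n) * 1))] at e4
    rw [hx fun j x => (x - (6 * j + 6) * n) * ((x - (6 * j + 6) * n) * 1)] at e3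
    simp only [Finset.sum_range_succ, Finset.sum_range_zero] at e1 e2 e3 e4
    push_cast at e1 e2 e3 e4
    have f2 : x 2 = 18 * n - 3 * (x 3 - 24 * n) := by linarith
    have f1 : x 1 = 12 * n + 3 * (x 3 - 24 * n) := by linarith
    have f0 : x 0 = 6 * n - (x 3 - 24 * n) := by linarith
    rw [f0, f1, f2] at e3
    exact sq_of_int (y := x 3 - 24 * n) (by linarith)

/-- Thue-Morse products. -/
def tm : ℕ → ℤ → List (Fin 2)
  | 0, s => replicate (qd 1 1 s) 0 ++ 1 :: replicate (qd 1 (-1) s) 0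
  | i + 1, s => tm i s ++ tm i (-s)

theorem tm_pw (i : ℕ) : PW (tm i) ∧ PW fun s => tm i (-s) := by
  induction i with
  | zero =>
    simp only [tm, qd_neg]
    exact ⟨(PW.qd 0 (by decide)).append ((PW.qd 0 (by decide)).cons 1),
      (PW.qd 0 (by decide)).append ((PW.qd 0 (by decide)).cons 1)⟩
  | succ i ih =>
    refine ⟨ih.1.append ih.2, ?_⟩
    simp only [tm, neg_neg]
    exact ih.2.append ih.1

theorem tm_eqv (i : ℕ) (s : ℤ) : Eqv (i + 1) (ws (tm i s)) (ws (tm i (-s))) := by
  induction i with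
  | zero =>
    refine eqv_one_of_perm (perm_iff_count.2 fun a => ?_)
    fin_cases a <;> simp [tm, count_replicate, qd_neg, add_comm]
  | succ i ih =>
    have h1 := Sh.of_eqv (ws_one _) ih
    simp only [tm, neg_neg, ws_append]
    exact (h1.mul h1.symm).eqv_succ fun u _ => by simp

theorem tm_count (i : ℕ) (s : ℤ) : (tm i s).count 1 = 2 ^ i ∧
    ((tm i s).count 0 : ℤ) = 2 * (s * s) * (tm i s).count 1 := by
  induction i generalizing s with
  | zero =>
    simp [tm, count_replicate, qd_cast (x := 1) (y := 1) (by decide),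
      qd_cast (x := 1) (y := -1) (by decide)]
    ring
  | succ i ih =>
    simp only [tm, count_append, Nat.cast_add, (ih _).2, neg_mul_neg]
    exact ⟨by rw [(ih _).1, (ih _).1]; ring, by ring⟩

theorem tm_suf (i : ℕ) (n s : ℤ) (hs : s * s = n) (G : ℤ → ℤ) (hG : G n = 0) (R : List (Fin 2))
    (hR : (R.count 0 : ℤ) = 2 * n * R.count 1) :
    suf 1 (fun v => G (((v.count 0 : ℤ) - (2 * v.count 1 + 1) * n) ^ 2)) (tm i s ++ R) =
      suf 1 (fun v => G (((v.count 0 : ℤ) - (2 * v.count 1 + 1) * n) ^ 2)) R := by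
  induction i generalizing s R with
  | zero =>
    have h01 : (0 : Fin 2) ≠ 1 := by decide
    simp only [tm, append_assoc, cons_append, suf_rep h01, suf, if_true, add_eq_left]
    rw [← hG]
    congr 1
    simp [count_replicate, hR, qd_cast (x := 1) (y := -1) (by decide), ← hs]
    ring
  | succ i ih =>
    rw [tm, append_assoc, ih s hs, ih (-s) (by rw [← hs]; ring) R hR]
    simp only [count_append, Nat.cast_add, (tm_count i _).2, hR, neg_mul_neg, hs]
    ring

theorem not_two_large {t : ℕ} (ht : 5 ≤ t) : ¬ HasQF 2 t := by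
  refine not_hasQF (by omega) (tm t) (tm_pw t).1 (fun s => (tm_eqv t s).mono (by omega))
    (fun s => ?_) fun n w h => ?_
  · have := count_le_length (a := 1) (l := tm t s)
    rw [(tm_count t s).1] at this
    exact Nat.lt_two_pow_self.le.trans this
  · have st : ∀ {d : ℕ} {F : ℤ → List (Fin 2) → ℤ}, Lin d F → Lin (d + 2) fun n w =>
        (((w.count 0 : ℤ) - (2 * w.count 1 + 1) * n) ^ 2 - n) * F n w := fun hF =>
      (((hF.dev 0 1 2 1).dev 0 1 2 1).add ((hF.smul (PZ.quad 0 (-1) 0)).mono (by omega))).of_eq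
        fun n w => by ring
    have e0 := h _ (Lin.count 1 (2 ^ t) (by omega)) fun s => by simp [(tm_count t s).1]
    have e1 := h _ (((st (st (Lin.one 0))).suf 1).mono ht) fun s => by
      have := tm_suf t (s * s) s rfl (fun z => (z - s * s) * ((z - s * s) * 1)) (by ring) []
        (by simp)
      rwa [append_nil] at this
    obtain ⟨x, hx⟩ := exists_pos (0 : Fin 2) 1 w
    rw [hx fun j x => ((x - (2 * j + 1) * n) ^ 2 - n) * (((x - (2 * j + 1) * n) ^ 2 - n) * 1),
      Finset.sum_eq_zero_iff_of_nonneg fun j _ => by rw [mul_one]; exact mul_self_nonneg _] at e1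
    have := e1 0 (Finset.mem_range.2 (by
      have : (0 : ℤ) < 2 ^ t := by positivity
      omega))
    rw [mul_one, mul_self_eq_zero] at this
    exact sq_of_int (y := x 0 - n) (by push_cast at this; linarith)

theorem not_two {t : ℕ} (ht : 3 ≤ t) : ¬ HasQF 2 t := by
  rcases (by omega : t = 3 ∨ t = 4 ∨ 5 ≤ t) with rfl | rfl | h
  exacts [not_two_three, not_two_four, not_two_large h]

end Pool.Agent.P.MP_26ce3f_co
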